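import Pool.Agent.W905.TM.Comb

/-!
# Two kinds of tame families: few breakpoints, bounded read
-/

namespace Pool.Agent.W905.TM

open Finset

open Classical in
/-- a sequence has at most one value more than it has breakpoints -/
theorem card_image_le_breaks {n : ℕ} {X : Type} [DecidableEq X] (f : Fin n → X) :
    (univ.image f).card ≤
      (univ.filter fun i : Fin n => ∃ h : i.1 + 1 < n, f i ≠ f ⟨i.1 + 1, h⟩).card + 1 := by
  rcases Nat.eq_zero_or_pos n with hn | hn
  · subst hn
    simp
  have : Nonempty (Fin n) := ⟨⟨n - 1, by omega⟩⟩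
  have hlast : ∀ x ∈ univ.image f, ∃ i : Fin n, f i = x ∧ ∀ i', f i' = x → i' ≤ i := by
    intro x hx
    obtain ⟨i0, _, h0⟩ := Finset.mem_image.1 hx
    have hne : (univ.filter fun i : Fin n => f i = x).Nonempty := ⟨i0, by simp [h0]⟩
    refine ⟨(univ.filter fun i : Fin n => f i = x).max' hne, ?_, ?_⟩
    · have := Finset.max'_mem _ hne
      simpa using this
    · intro i' hi'
      exact Finset.le_max' _ _ (by simp [hi'])
  choose! L hL1 hL2 using hlast
  have hcard : (univ.image f).card ≤
      (insert (⟨n - 1, by omega⟩ : Fin n)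
        (univ.filter fun i : Fin n => ∃ h : i.1 + 1 < n, f i ≠ f ⟨i.1 + 1, h⟩)).card := by
    refine Finset.card_le_card_of_injOn L ?_ ?_
    · intro x hx
      have hx' : x ∈ univ.image f := hx
      rw [Finset.mem_coe, Finset.mem_insert, Finset.mem_filter]
      by_cases h : (L x).1 + 1 < n
      · right
        refine ⟨Finset.mem_univ _, h, ?_⟩
        intro he
        have h3 := hL2 x hx' ⟨(L x).1 + 1, h⟩ (by rw [← he]; exact hL1 x hx')
        have h4 : (L x).1 + 1 ≤ (L x).1 := h3
        omega
      · left
        apply Fin.ext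
        have := (L x).2
        simp only
        omega
    · intro x hx y hy hxy
      rw [← hL1 x hx, ← hL1 y hy, hxy]
  exact hcard.trans (Finset.card_insert_le _ _)

open Classical in
/-- **Few breakpoints.** -/
theorem tame_breaks {J X : Type} [DecidableEq X] {n b : ℕ} (a : J → Fin n → X)
    (h : ∀ j, (univ.filter fun i : Fin n => ∃ h : i.1 + 1 < n, a j i ≠ a j ⟨i.1 + 1, h⟩).card ≤ b) :
    Tame (b + 1) 1 a := by
  intro k j hk
  have h1 := card_image_le_breaks (fun (i : Fin n) (t : Fin k) => a (j t) i)
  have h2 : (univ.filter fun i : Fin n => ∃ h : i.1 + 1 < n,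
      (fun (t : Fin k) => a (j t) i) ≠ fun t => a (j t) ⟨i.1 + 1, h⟩) ⊆
      univ.biUnion fun t : Fin k =>
        univ.filter fun i : Fin n => ∃ h : i.1 + 1 < n, a (j t) i ≠ a (j t) ⟨i.1 + 1, h⟩ := by
    intro i hi
    obtain ⟨_, h3, h4⟩ := Finset.mem_filter.1 hi
    obtain ⟨t, ht⟩ := Function.ne_iff.1 h4
    exact Finset.mem_biUnion.2 ⟨t, Finset.mem_univ _, Finset.mem_filter.2 ⟨Finset.mem_univ _, h3, ht⟩⟩
  have h3 := (Finset.card_le_card h2).trans Finset.card_biUnion_le
  have h4 : ∑ t : Fin k, (univ.filter fun i : Fin n => ∃ h : i.1 + 1 < n,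
      a (j t) i ≠ a (j t) ⟨i.1 + 1, h⟩).card ≤ k * b := by
    refine (Finset.sum_le_sum fun t _ => h (j t)).trans ?_
    simp
  rw [pow_one]
  calc _ ≤ k * b + 1 := h1.trans (by omega)
    _ ≤ (b + 1) * k := by nlinarith

open Classical in
/-- the number of functions with a support of at most `r` elements -/
theorem card_support_le {T A : Type} [Fintype T] [Fintype A] [DecidableEq A] [AddCommGroup A]
    (r : ℕ) :
    (univ.filter fun g : T → A => (univ.filter fun t => g t ≠ 0).card ≤ r).card ≤
      (Fintype.card T * Fintype.card A + 1) ^ r := by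
  induction r with
  | zero =>
    rw [pow_zero, Finset.card_le_one]
    intro g hg g' hg'
    have h1 : ∀ g : T → A, g ∈ (univ.filter fun g : T → A =>
        (univ.filter fun t => g t ≠ 0).card ≤ 0) → g = 0 := by
      intro g hg
      have h2 := (Finset.mem_filter.1 hg).2
      have h3 : (univ.filter fun t => g t ≠ 0) = ∅ := Finset.card_eq_zero.1 (Nat.le_zero.1 h2)
      funext t
      by_contra h4
      have : t ∈ (univ.filter fun t => g t ≠ 0) := by simpa using h4
      rw [h3] at this
      exact absurd this (Finset.notMem_empty _)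
    rw [h1 g hg, h1 g' hg']
  | succ r ih =>
    have hsub : (univ.filter fun g : T → A => (univ.filter fun t => g t ≠ 0).card ≤ r + 1) ⊆
        ((univ.filter fun g : T → A => (univ.filter fun t => g t ≠ 0).card ≤ r) ×ˢ
          (univ : Finset (Option (T × A)))).image fun q =>
            q.1 + (match q.2 with
              | none => 0
              | some u => Pi.single u.1 u.2) := by
      intro g hg
      have h2 := (Finset.mem_filter.1 hg).2
      rw [Finset.mem_image]
      by_cases h0 : ∃ t, g t ≠ 0
      · obtain ⟨t, ht⟩ := h0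
        refine ⟨(g - Pi.single t (g t), some (t, g t)), ?_, ?_⟩
        · rw [Finset.mem_product]
          refine ⟨Finset.mem_filter.2 ⟨Finset.mem_univ _, ?_⟩, Finset.mem_univ _⟩
          have h3 : (univ.filter fun t' : T => (g - Pi.single t (g t) : T → A) t' ≠ 0) ⊆
              (univ.filter fun t' => g t' ≠ 0).erase t := by
            intro t' ht'
            have h4 := (Finset.mem_filter.1 ht').2
            rw [Finset.mem_erase, Finset.mem_filter]
            by_cases h5 : t' = t
            · subst h5
              simp at h4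
            · refine ⟨h5, Finset.mem_univ _, ?_⟩
              simpa [Pi.single_apply, h5] using h4
          have h4 := Finset.card_le_card h3
          rw [Finset.card_erase_of_mem (by simpa using ht)] at h4
          simp only at h4 ⊢
          omega
        · simp
      · push Not at h0
        refine ⟨(g, none), ?_, by simp⟩
        rw [Finset.mem_product]
        refine ⟨Finset.mem_filter.2 ⟨Finset.mem_univ _, ?_⟩, Finset.mem_univ _⟩
        have : (univ.filter fun t => g t ≠ 0) = ∅ := by
          ext t
          simp [h0 t]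
        simp only [this, Finset.card_empty]
        exact Nat.zero_le _
    refine (Finset.card_le_card hsub).trans (Finset.card_image_le.trans ?_)
    rw [Finset.card_product, Finset.card_univ, Fintype.card_option, Fintype.card_prod, pow_succ]
    exact Nat.mul_le_mul_right _ ih

open Classical in
theorem tame_read_aux {J A T : Type} [Fintype J] [Fintype T] [Fintype A] [DecidableEq A]
    [AddCommGroup A] {n r k : ℕ} (a : J → Fin n → A)
    (h : ∀ i, (univ.filter fun j => a j i ≠ 0).card ≤ r) (ι : T → J) (hι : Function.Injective ι)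
    (u : Fin k → T) (hk : 1 ≤ k) (hT : Fintype.card T ≤ k) :
    (univ.image fun (i : Fin n) (t : Fin k) => a (ι (u t)) i).card ≤
      (Fintype.card A + 1) ^ r * k ^ r := by
  have h1 : (univ.image fun (i : Fin n) (t : Fin k) => a (ι (u t)) i) ⊆
      (univ.filter fun g : T → A => (univ.filter fun t => g t ≠ 0).card ≤ r).image
        fun g t => g (u t) := by
    intro F hF
    obtain ⟨i, _, rfl⟩ := Finset.mem_image.1 hF
    rw [Finset.mem_image]
    refine ⟨fun x => a (ι x) i, Finset.mem_filter.2 ⟨Finset.mem_univ _, ?_⟩, rfl⟩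
    refine le_trans ?_ (h i)
    refine Finset.card_le_card_of_injOn ι ?_ hι.injOn
    intro x hx
    have := (Finset.mem_filter.1 (Finset.mem_coe.1 hx)).2
    rw [Finset.mem_coe, Finset.mem_filter]
    exact ⟨Finset.mem_univ _, this⟩
  refine (Finset.card_le_card h1).trans (Finset.card_image_le.trans ?_)
  refine (card_support_le (T := T) (A := A) r).trans ?_
  rw [← mul_pow]
  refine Nat.pow_le_pow_left ?_ r
  nlinarith [Nat.mul_le_mul_right (Fintype.card A) hT]

open Classical in
/-- **Bounded read.** -/
theorem tame_read' {J A : Type} [Fintype J] [Fintype A] [DecidableEq A] [AddCommGroup A] {n r : ℕ}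
    (a : J → Fin n → A) (h : ∀ i, (univ.filter fun j => a j i ≠ 0).card ≤ r) :
    Tame ((Fintype.card A + 1) ^ r) r a := by
  intro k j hk
  refine tame_read_aux a h (T := {x : J // x ∈ univ.image j}) (fun x => x.1)
    Subtype.val_injective
    (fun t => ⟨j t, Finset.mem_image_of_mem _ (Finset.mem_univ _)⟩) hk ?_
  rw [Fintype.card_coe]
  exact Finset.card_image_le.trans (by simp)

/-- **Bounded read.** -/
theorem tame_read {J : Type} [Fintype J] {n m r : ℕ} (hm : 0 < m) (a : J → Fin n → ZMod m)
    (h : ∀ i, (univ.filter fun j => a j i ≠ 0).card ≤ r) :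
    Tame ((m + 1) ^ r) r a := by
  have : NeZero m := ⟨hm.ne'⟩
  have h1 := tame_read' (r := r) a (by
    intro i
    refine le_trans (le_of_eq ?_) (h i)
    congr)
  rwa [ZMod.card] at h1

end Pool.Agent.W905.TM
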