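import Pool.Agent.H746R3.Inv.Circ

/-!
# Circuits with arbitrary gates of small fan-in: statements of the algebraic parts
-/

namespace Pool.Agent.W905.TM

open Finset H746R3.Inv

/-- The circuit outputs `true` on the input `x`. -/
def Acc {I : Type} (p : ℕ) (C : Circuit I Unit) (x : I → Bool) : Prop :=
  C.Computes p x fun _ => true

open Classical in
/-- **RS.** Razborov-Smolensky approximation of circuits with arbitrary gates of fan-in at most `t`
whose inputs are functions of degree at most `D`. -/
def S_RS : Prop :=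
  ∀ (p : ℕ) [Fact p.Prime] {V I : Type} [Fintype V] [DecidableEq V] (C : Circuit I Unit)
    (h t ℓ D : ℕ), 1 ≤ ℓ → 1 ≤ D → C.DepthLE h →
    (∀ g, (C.kind g).IsWild → (C.wires g).length ≤ t) →
    ∀ inp : I → (V → Bool) → Bool,
    (∀ i, (fun y => (bK (inp i y) : ZMod p)) ∈ LD (ZMod p) V D) →
    ∃ Q ∈ LD (ZMod p) V (D * (ℓ * p + t) ^ h),
      (univ.filter fun y : V → Bool =>
        ¬ (Q y = bK (decide (Acc p C fun i => inp i y)))).card * p ^ ℓ ≤
        C.G * 2 ^ Fintype.card V

/-- **JUN.** A function that depends only on the coordinates in `H` has degree at most the number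
of elements of `H`. -/
def S_JUN : Prop :=
  ∀ {K : Type} [Field K] {V : Type} [Fintype V] [DecidableEq V] (H : Finset V)
    (f : (V → Bool) → Bool), (∀ x y, (∀ i ∈ H, x i = y i) → f x = f y) →
    (fun y => (bK (f y) : K)) ∈ LD K V H.card

end Pool.Agent.W905.TM
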