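import Mathlib

/-!
# Tame families of weights: statements of the combinatorial parts
-/

namespace Pool.Agent.W905.TM

open Finset

/-- Tame families of labellings of the points of `P`: any `k ≥ 1` of the labellings `a j` divide the
points into at most `c * k ^ v` classes. -/
def Tame {J P X : Type} [Fintype P] [DecidableEq X] (c v : ℕ) (a : J → P → X) : Prop :=
  ∀ (k : ℕ) (j : Fin k → J), 1 ≤ k →
    (univ.image fun (i : P) (t : Fin k) => a (j t) i).card ≤ c * k ^ v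

/-- the labelling is constant on the set `M` -/
def Const {P X : Type} (a : P → X) (M : Finset P) : Prop := ∀ x ∈ M, ∀ y ∈ M, a x = a y

open Classical in
/-- **STEP.** For every weight function on a tame family there is a set of `m` points such that the
total weight of the labellings that are not constant on it is small. -/
def S_STEP : Prop :=
  ∀ {J P X : Type} [Fintype J] [Fintype P] [DecidableEq P] [DecidableEq X] (a : J → P → X)
    (c v m k : ℕ) (ρ : ℝ) (R : Finset P) (w : J → ℝ), Tame c v a → 1 ≤ k → 0 ≤ ρ → ρ ≤ 1 →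
    (∀ j, 0 < w j) → (R.card : ℝ) ^ m * (1 - ρ) ^ k < 1 → m * (c * k ^ v) < R.card →
    m ≤ R.card →
    ∃ M ⊆ R, M.card = m ∧
      ∑ j ∈ univ.filter (fun j => ¬ Const (a j) M), w j ≤ ρ * ∑ j, w j

open Classical in
/-- **LC.** Disjoint sets of `m` points such that each labelling of a tame family is constant on
most of them. -/
def S_LC : Prop :=
  ∀ {J P X : Type} [Fintype J] [Fintype P] [DecidableEq P] [DecidableEq X] (a : J → P → X)
    (c v m k N : ℕ) (ρ : ℝ), Tame c v a → 1 ≤ k → 0 ≤ ρ → ρ ≤ 1 →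
    (Fintype.card P : ℝ) ^ m * (1 - ρ) ^ k < 1 → m * (c * k ^ v) + N * m < Fintype.card P →
    m + N * m ≤ Fintype.card P →
    ∃ M : Fin N → Finset P, (∀ l, (M l).card = m) ∧ (∀ l l', l ≠ l' → Disjoint (M l) (M l')) ∧
      ∀ j, (2 : ℝ) ^ (univ.filter fun l => ¬ Const (a j) (M l)).card ≤
        Fintype.card J * (1 + ρ) ^ N

/-- **ZS.** Zero-sum subfamilies: a polynomial bound for the Davenport constant of `(ℤ/m)^K`. -/
def S_ZS : Prop :=
  ∀ (m K : ℕ), 0 < m → ∀ {ι : Type} [Fintype ι] [DecidableEq ι] (a : ι → Fin K → ZMod m),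
    (K * m + 1) ^ m ≤ Fintype.card ι → ∃ S : Finset ι, S.Nonempty ∧ ∀ t, ∑ i ∈ S, a i t = 0

/-- **SEL.** A choice of one element of each of `r` groups of `w` elements that meets each of a
family of small sets in few elements. -/
def S_SEL : Prop :=
  ∀ (r w D : ℕ) {U : Type} [Fintype U] (S : U → Finset (Fin r × Fin w)), 0 < w →
    (∀ u, (S u).card ≤ w) → 3 * Fintype.card U < 2 ^ (D + 1) →
    ∃ f : Fin r → Fin w, ∀ u, (univ.filter fun l => (l, f l) ∈ S u).card ≤ D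

/-- **PAR.** The choice of the parameters. -/
def S_PAR : Prop :=
  ∀ (p m V h c : ℕ), 0 < p → 0 < m → 0 < V → ∃ n₀ : ℕ, ∀ n ≥ n₀, ∀ t Z : ℕ,
    t = ⌊(n : ℝ) ^ (1 / (8 * V * m * (h + 2) : ℝ))⌋₊ → Z = (t * m + 1) ^ m →
    ∃ (j k w N : ℕ) (ρ : ℝ), N = Z * Z * ((2 * j + 1) * w) ∧ 1 ≤ k ∧ 0 ≤ ρ ∧ ρ ≤ 1 ∧ 1 ≤ w ∧
      (n : ℝ) ^ m * (1 - ρ) ^ k < 1 ∧ m * (c * k ^ V) + N * m < n ∧ m + N * m ≤ n ∧
      (2 : ℝ) ^ (t + 1) * (1 + ρ) ^ N < 2 ^ (w + 1) ∧ 2 * ((2 * j + 1) * (m * Z)) ≤ n ∧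
      8 * (((t + 2) * ((t + 4) * p + t) ^ h : ℕ) : ℝ) < 3 * √(2 * j + 1)

end Pool.Agent.W905.TM
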