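import Pool.Agent.W905.TM.Comb

/-!
# Disjoint blocks on which all weights are trivial: assembly of the combinatorial part
-/

namespace Pool.Agent.W905.TM

open Finset

open Classical in
theorem core (hLC : S_LC) (hZS : S_ZS) (hSEL : S_SEL) {m c v k N r w Z t D n : ℕ} {ρ : ℝ}
    {J : Type} [Fintype J] (a : J → Fin n → ZMod m) (B : Finset J) (hm : 0 < m)
    (hT : Tame c v (fun j : {j // j ∉ B} => a j)) (hB : B.card ≤ t) (hZ : Z = (t * m + 1) ^ m)
    (hN : N = Z * Z * (r * w)) (hk : 1 ≤ k) (hρ0 : 0 ≤ ρ) (hρ1 : ρ ≤ 1)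
    (h1 : (n : ℝ) ^ m * (1 - ρ) ^ k < 1) (h2 : m * (c * k ^ v) + N * m < n)
    (h3 : m + N * m ≤ n) (h4 : (Fintype.card J : ℝ) * (1 + ρ) ^ N < 2 ^ (w + 1))
    (h5 : 3 * Fintype.card J < 2 ^ (D + 1)) (hw : 1 ≤ w) :
    ∃ (b : ℕ) (Q : Fin r → Finset (Fin n)), 1 ≤ b ∧ b ≤ m * Z ∧ (∀ l, (Q l).card = b) ∧
      (∀ l l', l ≠ l' → Disjoint (Q l) (Q l')) ∧ (∀ j ∈ B, ∀ l, ∑ i ∈ Q l, a j i = 0) ∧
      ∀ j, j ∉ B → (univ.filter fun l => ∑ i ∈ Q l, a j i ≠ 0).card ≤ D := by
  have hZ1 : 1 ≤ Z := by rw [hZ]; exact Nat.one_le_pow _ _ (by omega)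
  obtain ⟨M0, hM0c, hM0d, hM0j⟩ := hLC (fun j : {j // j ∉ B} => a j) c v m k N ρ hT hk hρ0 hρ1
    (by rwa [Fintype.card_fin]) (by rwa [Fintype.card_fin]) (by rwa [Fintype.card_fin])
  have hNe : N = (Z * (r * w)) * Z := by rw [hN]; ring
  subst hNe
  -- the blocks in chunks
  set M : Fin (Z * (r * w)) → Fin Z → Finset (Fin n) := fun g i => M0 (finProdFinEquiv (g, i))
    with hM
  have hMc : ∀ g i, (M g i).card = m := fun g i => hM0c _
  have hMd : ∀ g i g' i', (g, i) ≠ (g', i') → Disjoint (M g i) (M g' i') := by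
    intro g i g' i' h
    exact hM0d _ _ fun h' => h (finProdFinEquiv.injective h')
  -- few cut blocks
  have hcut : ∀ j : {j // j ∉ B},
      (univ.filter fun l => ¬ Const (a j) (M0 l)).card ≤ w := by
    intro j
    have e1 := hM0j j
    have e2 : (Fintype.card {j // j ∉ B} : ℝ) ≤ Fintype.card J := by
      exact_mod_cast Fintype.card_subtype_le _
    have e3 : (0 : ℝ) ≤ (1 + ρ) ^ (Z * (r * w) * Z) := by positivity
    have e4 : (2 : ℝ) ^ (univ.filter fun l => ¬ Const (a j) (M0 l)).card < 2 ^ (w + 1) :=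
      lt_of_le_of_lt (e1.trans (mul_le_mul_of_nonneg_right e2 e3)) h4
    have e5 := (pow_lt_pow_iff_right₀ (by norm_num : (1 : ℝ) < 2)).1 e4
    omega
  -- zero-sum subfamilies of the chunks
  have hzs : ∀ g : Fin (Z * (r * w)), ∃ S : Finset (Fin Z), S.Nonempty ∧
      ∀ j ∈ B, ∑ i ∈ S, ∑ x ∈ M g i, a j x = 0 := by
    intro g
    obtain ⟨S, hS, h0⟩ := hZS m B.card hm
      (fun (i : Fin Z) (u : Fin B.card) => ∑ x ∈ M g i, a (B.equivFin.symm u : J) x) (by
        rw [Fintype.card_fin, hZ]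
        exact Nat.pow_le_pow_left (by have := Nat.mul_le_mul_right m hB; omega) m)
    refine ⟨S, hS, fun j hj => ?_⟩
    have := h0 (B.equivFin ⟨j, hj⟩)
    simpa using this
  choose S hS hS0 using hzs
  -- pigeonhole on the sizes
  obtain ⟨b0, hb0, hcard⟩ := Finset.exists_le_card_fiber_of_mul_le_card_of_maps_to
    (s := (univ : Finset (Fin (Z * (r * w))))) (t := Finset.Icc 1 Z) (f := fun g => (S g).card)
    (n := r * w) (fun g _ => by
      rw [Finset.mem_Icc]
      refine ⟨Finset.card_pos.2 (hS g), ?_⟩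
      calc (S g).card ≤ (univ : Finset (Fin Z)).card := Finset.card_le_univ _
        _ = Z := by simp) ⟨1, by rw [Finset.mem_Icc]; omega⟩ (by simp)
  rw [Finset.mem_Icc] at hb0
  -- an injection
  obtain ⟨ι, hι, hιS⟩ : ∃ ι : Fin r × Fin w → Fin (Z * (r * w)), Function.Injective ι ∧
      ∀ q, (S (ι q)).card = b0 := by
    have e1 : Fintype.card (Fin r × Fin w) ≤
        Fintype.card {g : Fin (Z * (r * w)) // (S g).card = b0} := by
      rw [Fintype.card_subtype]
      simpa using hcard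
    obtain ⟨φ⟩ := Function.Embedding.nonempty_of_card_le e1
    exact ⟨fun q => (φ q).1, fun q q' h => φ.injective (Subtype.ext h), fun q => (φ q).2⟩
  -- the bad sets
  set T : {j // j ∉ B} → Finset (Fin r × Fin w) := fun j =>
    univ.filter fun q => ∃ i ∈ S (ι q), ¬ Const (a j) (M (ι q) i) with hTdef
  have hTc : ∀ j, (T j).card ≤ w := by
    intro j
    refine le_trans ?_ (hcut j)
    have hch : ∀ q : Fin r × Fin w, ∃ i : Fin Z, q ∈ T j → ¬ Const (a j) (M (ι q) i) := by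
      intro q
      by_cases hq : q ∈ T j
      · obtain ⟨i, _, hi⟩ := (Finset.mem_filter.1 hq).2
        exact ⟨i, fun _ => hi⟩
      · exact ⟨⟨0, hZ1⟩, fun h => absurd h hq⟩
    choose i hi using hch
    refine Finset.card_le_card_of_injOn (fun q => finProdFinEquiv (ι q, i q)) ?_ ?_
    · intro q hq
      rw [Finset.mem_coe] at hq ⊢
      exact Finset.mem_filter.2 ⟨Finset.mem_univ _, hi q hq⟩
    · intro q _ q' _ h
      have := finProdFinEquiv.injective h
      exact hι (Prod.ext_iff.1 this).1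
  obtain ⟨f, hf⟩ := hSEL r w D T hw hTc (by
    have := Fintype.card_subtype_le (fun j => j ∉ B)
    omega)
  -- the blocks
  have hPd : ∀ q : Fin r × Fin w, (S (ι q) : Set (Fin Z)).PairwiseDisjoint (M (ι q)) := by
    intro q i _ i' _ h
    exact hMd _ _ _ _ fun h' => h (Prod.ext_iff.1 h').2
  refine ⟨m * b0, fun l => (S (ι (l, f l))).biUnion (M (ι (l, f l))), ?_, ?_, ?_, ?_, ?_, ?_⟩
  · exact Nat.mul_pos hm hb0.1
  · exact Nat.mul_le_mul_left _ hb0.2
  · intro l
    rw [Finset.card_biUnion (fun i hi i' hi' h => hPd _ hi hi' h)]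
    simp only [hMc, Finset.sum_const, hιS, smul_eq_mul]
    ring
  · intro l l' hl
    rw [Finset.disjoint_biUnion_left]
    intro i _
    rw [Finset.disjoint_biUnion_right]
    intro i' _
    refine hMd _ _ _ _ fun h' => hl ?_
    have := hι (Prod.ext_iff.1 h').1
    exact (Prod.ext_iff.1 this).1
  · intro j hj l
    rw [Finset.sum_biUnion (hPd _)]
    exact hS0 _ j hj
  · intro j hj
    refine le_trans (Finset.card_le_card ?_) (hf ⟨j, hj⟩)
    intro l hl
    rw [Finset.mem_filter] at hl ⊢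
    refine ⟨Finset.mem_univ _, ?_⟩
    by_contra hcon
    apply hl.2
    rw [Finset.sum_biUnion (hPd _)]
    refine Finset.sum_eq_zero fun i hi => ?_
    have hc : Const (a j) (M (ι (l, f l)) i) := by
      by_contra hc
      exact hcon (Finset.mem_filter.2 ⟨Finset.mem_univ _, i, hi, hc⟩)
    obtain ⟨x0, hx0⟩ : (M (ι (l, f l)) i).Nonempty := by
      rw [← Finset.card_pos, hMc]; exact hm
    rw [Finset.sum_congr rfl fun x hx => hc x hx x0 hx0, Finset.sum_const, hMc, nsmul_eq_mul,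
      ZMod.natCast_self, zero_mul]

end Pool.Agent.W905.TM
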