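import Pool.Agent.W905.TM.Core
import Pool.Agent.W905.TM.Circ
import Pool.Agent.W515.BP.Smo
import Pool.Agent.W655.BP.Bin

/-!
# Majority and circuits with composite modular gates at the bottom: assembly
-/

namespace Pool.Agent.W905.TM

open Finset H746R3.Inv

/-- the number of ones of `x` -/
def ones {n : ℕ} (x : Fin n → Bool) : ℕ := (univ.filter fun i => x i = true).card

/-- A gate that counts modulo `m`: its value is determined by the sum modulo `m` of the weights
`a i` of the variables `i` with the value one. -/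
def modGate {n m : ℕ} (a : Fin n → ZMod m) (φ : ZMod m → Bool) (x : Fin n → Bool) : Bool :=
  φ (∑ i, if x i = true then a i else 0)

/-- the assignment with the value one on `W` and on the blocks `Q l` with `y l = true` -/
noncomputable def asg {n r : ℕ} (W : Finset (Fin n)) (Q : Fin r → Finset (Fin n))
    (y : Fin r → Bool) (i : Fin n) : Bool :=
  open Classical in decide (i ∈ W ∨ ∃ l, y l = true ∧ i ∈ Q l)

theorem sum_asg {n r : ℕ} {A : Type} [AddCommMonoid A] {W : Finset (Fin n)}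
    {Q : Fin r → Finset (Fin n)} (hW : ∀ l, Disjoint W (Q l))
    (hQ : ∀ l l', l ≠ l' → Disjoint (Q l) (Q l')) (f : Fin n → A) (y : Fin r → Bool) :
    (∑ i, if asg W Q y i = true then f i else 0) =
      ∑ i ∈ W, f i + ∑ l, if y l = true then ∑ i ∈ Q l, f i else 0 := by
  classical
  rw [← Finset.sum_filter, ← Finset.sum_filter]
  have h1 : (univ.filter fun i => asg W Q y i = true) =
      W ∪ (univ.filter fun l => y l = true).biUnion Q := by
    ext i
    simp only [asg, decide_eq_true_eq, Finset.mem_filter, Finset.mem_univ, true_and,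
      Finset.mem_union, Finset.mem_biUnion]
  rw [h1, Finset.sum_union, Finset.sum_biUnion]
  · intro l _ l' _ h
    exact hQ l l' h
  · rw [Finset.disjoint_biUnion_right]
    intro l _
    exact hW l

theorem ones_asg {n r b : ℕ} {W : Finset (Fin n)}
    {Q : Fin r → Finset (Fin n)} (hW : ∀ l, Disjoint W (Q l))
    (hQ : ∀ l l', l ≠ l' → Disjoint (Q l) (Q l')) (hb : ∀ l, (Q l).card = b)
    (y : Fin r → Bool) :
    ones (asg W Q y) = W.card + b * W951.BP.wt y := by
  have h := sum_asg hW hQ (fun _ => (1 : ℕ)) y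
  simp only [Finset.sum_const, smul_eq_mul, mul_one, hb] at h
  unfold ones W951.BP.wt
  rw [Finset.card_filter, h, Finset.card_filter, Finset.mul_sum]
  congr 1
  refine Finset.sum_congr rfl fun l _ => ?_
  split_ifs <;> simp

/-- the last step: a function of small degree does not agree with majority on most inputs -/
theorem smo_end {p : ℕ} [Fact p.Prime] {j D : ℕ} (Q : (Fin (2 * j + 1) → Bool) → ZMod p)
    (hQ : Q ∈ LD (ZMod p) (Fin (2 * j + 1)) D)
    (hE : (open Classical in (univ.filter fun y => ¬ Q y = bK (W951.BP.maj y)).card) * 8 ≤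
      2 ^ (2 * j + 1)) :
    3 * √(2 * j + 1 : ℝ) ≤ 8 * D := by
  classical
  have h1 := W515.BP.t_SMO j D Q hQ
  have h2 := W655.BP.t_BIN.1 j
  have h3 : (univ.filter fun y => Q y = bK (W951.BP.maj y)).card +
      (univ.filter fun y => ¬ Q y = bK (W951.BP.maj y)).card = 2 ^ (2 * j + 1) := by
    rw [Finset.card_filter_add_card_filter_not, Finset.card_univ, Fintype.card_fun,
      Fintype.card_bool, Fintype.card_fin]
  have h1' : ((univ.filter fun y => Q y = bK (W951.BP.maj y)).card : ℝ) ≤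
      2 ^ (2 * j) + D * (2 * j + 1).choose j := by
    have h10 : (univ.filter fun y => Q y = bK (W951.BP.maj y)).card ≤
        2 ^ (2 * j) + D * (2 * j + 1).choose j := by
      convert h1
    exact_mod_cast h10
  have hE' : ((univ.filter fun y => ¬ Q y = bK (W951.BP.maj y)).card : ℝ) * 8 ≤
      2 ^ (2 * j + 1) := by
    have h10 : (univ.filter fun y => ¬ Q y = bK (W951.BP.maj y)).card * 8 ≤
        2 ^ (2 * j + 1) := by
      convert hE
    exact_mod_cast h10
  have h3' : ((univ.filter fun y => Q y = bK (W951.BP.maj y)).card : ℝ) +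
      ((univ.filter fun y => ¬ Q y = bK (W951.BP.maj y)).card : ℝ) = 2 ^ (2 * j + 1) := by
    exact_mod_cast h3
  have h4 : (2 : ℝ) ^ (2 * j + 1) = 2 * 2 ^ (2 * j) := by rw [pow_succ]; ring
  have h5 : (0 : ℝ) < 2 ^ (2 * j) := by positivity
  set c : ℝ := ((2 * j + 1).choose j : ℝ) with hc
  set q : ℝ := √(2 * j + 1 : ℝ) with hq
  have hq0 : 0 ≤ q := Real.sqrt_nonneg _
  -- 3/8 2^(2j+1) ≤ D c
  have h6 : 3 * 2 ^ (2 * j + 1) ≤ 8 * (D * c) := by linarith
  have h7 : 3 * 2 ^ (2 * j + 1) * q ≤ 8 * (D * c) * q := mul_le_mul_of_nonneg_right h6 hq0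
  have h8 : 8 * (D * c) * q ≤ 8 * D * 2 ^ (2 * j + 1) := by
    calc 8 * (D * c) * q = 8 * D * (c * q) := by ring
      _ ≤ 8 * D * 2 ^ (2 * j + 1) := by gcongr
  have h9 : 3 * q * 2 ^ (2 * j + 1) ≤ 8 * D * 2 ^ (2 * j + 1) := by linarith
  exact le_of_mul_le_mul_right h9 (by positivity)

open Classical in
theorem main_tm (hRS : S_RS) (hJUN : S_JUN) (hLC : S_LC) (hZS : S_ZS) (hSEL : S_SEL)
    (hPAR : S_PAR) (p : ℕ) (hp : p.Prime) (m v h : ℕ) (hm : 0 < m) (δ : ℝ)
    (hδ : δ = 1 / (8 * (v + 1) * m * (h + 2))) (c : ℕ) :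
    ∃ n₀ : ℕ, ∀ n ≥ n₀, ∀ s : ℕ, (s : ℝ) ≤ 2 ^ ((n : ℝ) ^ δ) →
      ∀ (J : Type) [Fintype J] (a : J → Fin n → ZMod m) (φ : J → ZMod m → Bool) (B : Finset J),
      Fintype.card J ≤ s → (B.card : ℝ) ≤ (n : ℝ) ^ δ →
      Tame c v (fun j : {j // j ∉ B} => a j) →
      ∀ C : Circuit (Fin n ⊕ J) Unit, C.DepthLE h → C.G ≤ s →
      (∀ g, (C.kind g).IsWild → ((C.wires g).length : ℝ) ≤ (n : ℝ) ^ δ) →
      ¬ ∀ x : Fin n → Bool, Acc p C (Sum.elim x fun j => modGate (a j) (φ j) x) ↔
        n ≤ 2 * ones x := by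
  have : Fact p.Prime := ⟨hp⟩
  have hδ' : δ = 1 / (8 * ((v + 1 : ℕ) : ℝ) * m * (h + 2) : ℝ) := by
    rw [hδ]; push_cast; rfl
  obtain ⟨n₀, hn₀⟩ := hPAR p m (v + 1) h c hp.pos hm (Nat.succ_pos v)
  refine ⟨n₀, fun n hn s hs J _ a φ B hJ hB hT C hCd hCs hCw hmaj => ?_⟩
  obtain ⟨t, ht⟩ : ∃ t : ℕ, t = ⌊(n : ℝ) ^ δ⌋₊ := ⟨_, rfl⟩
  obtain ⟨j, k, w, N, ρ, hN, hk, hρ0, hρ1, hw, h1, h2, h3, h4, h5, h6⟩ :=
    hn₀ n hn t ((t * m + 1) ^ m) (by rw [ht, hδ']) rfl
  have hpos : (0 : ℝ) ≤ (n : ℝ) ^ δ := by positivity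
  have hlt : (n : ℝ) ^ δ < ((t + 1 : ℕ) : ℝ) := by
    rw [ht]
    exact_mod_cast Nat.lt_floor_add_one _
  -- sizes
  have hs' : s ≤ 2 ^ (t + 1) := by
    have h10 : (s : ℝ) ≤ 2 ^ (t + 1) := by
      refine hs.trans ?_
      rw [← Real.rpow_natCast]
      exact Real.rpow_le_rpow_of_exponent_le (by norm_num) hlt.le
    exact_mod_cast h10
  have hBt : B.card ≤ t := by rw [ht]; exact Nat.le_floor hB
  have hwt : ∀ g, (C.kind g).IsWild → (C.wires g).length ≤ t := by
    intro g hg
    rw [ht]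
    exact Nat.le_floor (hCw g hg)
  have hT' : Tame c (v + 1) (fun j : {j // j ∉ B} => a j) := by
    intro k j hk
    refine (hT k j hk).trans (Nat.mul_le_mul_left _ ?_)
    exact Nat.pow_le_pow_right hk (Nat.le_succ v)
  have hJ' : Fintype.card J ≤ 2 ^ (t + 1) := hJ.trans hs'
  obtain ⟨b, Q, hb1, hbZ, hQc, hQd, hQB, hQD⟩ := core hLC hZS hSEL (D := t + 2) a B hm hT' hBt rfl
    hN hk hρ0 hρ1 h1 h2 h3 (by
      refine lt_of_le_of_lt ?_ h4
      have h10 : (Fintype.card J : ℝ) ≤ 2 ^ (t + 1) := by exact_mod_cast hJ'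
      have h11 : (0 : ℝ) ≤ (1 + ρ) ^ N := by positivity
      exact mul_le_mul_of_nonneg_right h10 h11) (by
      have h10 : 2 ^ (t + 2 + 1) = 4 * 2 ^ (t + 1) := by rw [pow_succ, pow_succ]; ring
      have h11 : 0 < 2 ^ (t + 1) := by positivity
      omega) hw
  -- the base
  set U : Finset (Fin n) := univ.biUnion Q with hU
  have hUc : U.card = (2 * j + 1) * b := by
    rw [hU, Finset.card_biUnion (fun l _ l' _ hl => hQd l l' hl)]
    simp [hQc]
  have hrb : 2 * ((2 * j + 1) * b) ≤ n := by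
    refine le_trans ?_ h5
    exact Nat.mul_le_mul_left _ (Nat.mul_le_mul_left _ hbZ)
  obtain ⟨W, hWU, hWc⟩ : ∃ W ⊆ Uᶜ, W.card = (n + 1) / 2 - b * (j + 1) := by
    refine Finset.exists_subset_card_eq ?_
    rw [Finset.card_compl, Fintype.card_fin, hUc]
    have : b * (j + 1) ≤ (2 * j + 1) * b := by nlinarith
    omega
  have hW : ∀ l, Disjoint W (Q l) := by
    intro l
    rw [Finset.disjoint_left]
    intro i hi hi'
    have := hWU hi
    rw [Finset.mem_compl] at this
    exact this (Finset.mem_biUnion.2 ⟨l, Finset.mem_univ _, hi'⟩)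
  have hones : ∀ y : Fin (2 * j + 1) → Bool,
      (n ≤ 2 * ones (asg W Q y)) ↔ W951.BP.maj y = true := by
    intro y
    rw [ones_asg hW hQd hQc, hWc]
    unfold W951.BP.maj
    rw [decide_eq_true_iff]
    have e1 : b * (j + 1) ≤ (2 * j + 1) * b := by nlinarith
    have e2 : b * (j + 1) ≤ (n + 1) / 2 := by omega
    constructor
    · intro hle
      by_contra hcon
      have e3 : W951.BP.wt y ≤ j := by omega
      have e4 : b * W951.BP.wt y ≤ b * j := Nat.mul_le_mul_left _ e3
      have e5 : b * (j + 1) = b * j + b := by ring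
      omega
    · intro hlt
      have e3 : j + 1 ≤ W951.BP.wt y := by omega
      have e4 : b * (j + 1) ≤ b * W951.BP.wt y := Nat.mul_le_mul_left _ e3
      omega
  -- the inputs of the circuit as functions of `y`
  set inp : (Fin n ⊕ J) → (Fin (2 * j + 1) → Bool) → Bool := fun i y =>
    (Sum.elim (asg W Q y) (fun j => modGate (a j) (φ j) (asg W Q y)) : Fin n ⊕ J → Bool) i
    with hinp
  have hLD : ∀ i, (fun y => (bK (inp i y) : ZMod p)) ∈ LD (ZMod p) (Fin (2 * j + 1)) (t + 2) := by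
    rintro (i | u)
    · have h10 := hJUN (K := ZMod p) (univ.filter fun l => i ∈ Q l) (fun y => asg W Q y i) (by
        intro y y' hy
        unfold asg
        rw [decide_eq_decide]
        refine or_congr Iff.rfl (exists_congr fun l => ?_)
        constructor
        · rintro ⟨e1, e2⟩
          exact ⟨by rw [← hy l (Finset.mem_filter.2 ⟨Finset.mem_univ _, e2⟩)]; exact e1, e2⟩
        · rintro ⟨e1, e2⟩
          exact ⟨by rw [hy l (Finset.mem_filter.2 ⟨Finset.mem_univ _, e2⟩)]; exact e1, e2⟩)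
      refine LD_mono ?_ h10
      refine le_trans (Finset.card_le_one.2 ?_) (by omega)
      intro l hl l' hl'
      by_contra hne
      exact (Finset.disjoint_left.1 (hQd l l' hne)) (Finset.mem_filter.1 hl).2
        (Finset.mem_filter.1 hl').2
    · by_cases hu : u ∈ B
      · have h10 := hJUN (K := ZMod p) (∅ : Finset (Fin (2 * j + 1)))
          (fun y => modGate (a u) (φ u) (asg W Q y)) (by
            intro y y' _
            unfold modGate
            rw [sum_asg hW hQd, sum_asg hW hQd]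
            simp only [hQB u hu, ite_self])
        exact LD_mono (by simp) h10
      · have h10 := hJUN (K := ZMod p) (univ.filter fun l => ∑ i ∈ Q l, a u i ≠ 0)
          (fun y => modGate (a u) (φ u) (asg W Q y)) (by
            intro y y' hy
            unfold modGate
            rw [sum_asg hW hQd, sum_asg hW hQd]
            have e1 : ∀ l, (if y l = true then ∑ i ∈ Q l, a u i else 0) =
                if y' l = true then ∑ i ∈ Q l, a u i else 0 := by
              intro l
              by_cases e2 : ∑ i ∈ Q l, a u i = 0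
              · simp only [e2, ite_self]
              · rw [hy l (Finset.mem_filter.2 ⟨Finset.mem_univ _, e2⟩)]
            simp only [e1])
        exact LD_mono (hQD u hu) h10
  obtain ⟨Qp, hQp, hQpE⟩ := hRS p C h t (t + 4) (t + 2) (by omega) (by omega) hCd hwt inp hLD
  -- the circuit computes majority
  have hacc : ∀ y, decide (Acc p C fun i => inp i y) = W951.BP.maj y := by
    intro y
    rw [Bool.eq_iff_iff, decide_eq_true_iff, ← hones y]
    exact hmaj (asg W Q y)
  have hE : (univ.filter fun y => ¬ Qp y = bK (W951.BP.maj y)).card * 8 ≤ 2 ^ (2 * j + 1) := by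
    simp only [hacc, Fintype.card_fin] at hQpE
    have e1 : 2 ^ (t + 4) ≤ p ^ (t + 4) := Nat.pow_le_pow_left hp.two_le _
    have e2 : 2 ^ (t + 4) = 8 * 2 ^ (t + 1) := by
      rw [show t + 4 = (t + 1) + 3 by ring, pow_add]; ring
    have e3 : C.G ≤ 2 ^ (t + 1) := hCs.trans hs'
    have e4 : (univ.filter fun y => ¬ Qp y = bK (W951.BP.maj y)).card * (8 * 2 ^ (t + 1)) ≤
        2 ^ (t + 1) * 2 ^ (2 * j + 1) := by
      calc _ ≤ (univ.filter fun y => ¬ Qp y = bK (W951.BP.maj y)).card * p ^ (t + 4) := by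
            rw [← e2]; exact Nat.mul_le_mul_left _ e1
        _ ≤ C.G * 2 ^ (2 * j + 1) := hQpE
        _ ≤ _ := Nat.mul_le_mul_right _ e3
    have e5 : 0 < 2 ^ (t + 1) := by positivity
    refine Nat.le_of_mul_le_mul_left ?_ e5
    calc _ = (univ.filter fun y => ¬ Qp y = bK (W951.BP.maj y)).card * (8 * 2 ^ (t + 1)) := by
          ring
      _ ≤ _ := e4
  have hend := smo_end Qp hQp (by convert hE)
  exact absurd h6 (not_lt.2 hend)

end Pool.Agent.W905.TM
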